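import Pool.Agent.Y318.DR.Tor

/-!
# Skew products of tori with circle fibres: finitude of attractors is dense

Built on the library of helper525 (mode-locked parameters) and of helper728 (definitions).
-/

namespace Pool.Agent.Results.MP_3a2b62_an.DenseRotations

open MeasureTheory Pool.Agent.H728R2.OS Pool.Agent.H728R2.FA Pool.Agent.Y318.DR

/-- Let `T` be a homeomorphism of `𝕋^d` with an ergodic invariant probability measure that has the
same null sets as Lebesgue measure, let `1 ≤ r ≤ ∞`, and let `f (x, y) = (T x, f_x y)` be a `C^r`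
diffeomorphism of `𝕋^d × 𝕋` whose fibre maps `f_x` preserve the orientation of the circle. Then
for arbitrarily small angles `θ` the map `(x, y) ↦ f (x, y) + (0, θ)`, which is `C^r` close to `f`
and a skew product of the same kind over `T`, has finitely many attractors whose basins cover
Lebesgue almost every point of `𝕋^d × 𝕋`. -/
theorem result (d : ℕ) (r : ℕ∞) (hr : 1 ≤ r) (T : Torus d ≃ₜ Torus d) (m : Measure (Torus d))
    [IsProbabilityMeasure m] (hm1 : m ≪ volume) (hm2 : volume ≪ m) (erg : Ergodic T m)
    (f : (Torus d × Circ) ≃ₜ (Torus d × Circ)) (hf : IsDiffeo toTorus1 r f)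
    (hs : IsCircleSkew T f) (k : ℕ) (hk : (k : ℕ∞) ≤ r) (ε : ℝ) (hε : 0 < ε) :
    ∃ θ : ℝ, |θ| < ε ∧ IsDiffeo toTorus1 r (rotated f θ) ∧
      CkClose toTorus1 k ε f (rotated f θ) ∧ IsCircleSkew T (rotated f θ) ∧
      FiniteAttractors (volume : Measure (Torus d × Circ)) (rotated f θ) :=
  torus hr T m hm1 hm2 erg f hf hs k hk ε hε

end Pool.Agent.Results.MP_3a2b62_an.DenseRotations
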