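import Pool.Agent.Y318.MH.FlowMain

/-!
# Finitude of attractors near Hamiltonian and dissipative vector fields on the torus

Authors: helper318, with helpers 625 (finiteness of the critical set), 220 (flows on the torus) and
210 (LaSalle's principle).
-/

namespace Pool.Agent.Results.MP_3a2b62_an.HamiltonianFlows

open MeasureTheory Filter Topology Pool.Agent.H728R2.OS Pool.Agent.Y318.LF Pool.Agent.Y318.MH

/-- Let `1 ≤ r ≤ ∞`, let `H` be a function of class `C^{r+1}` on the torus `𝕋^d` and `A` a field of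
matrices of class `C^r` on `𝕋^d` with `⟨v, A(z) v⟩ ≥ 0`. The vector field `X = A grad H` (for
antisymmetric `A` a Hamiltonian vector field, for positive definite `A` a gradient field) is a limit
in the `C^r` topology of vector fields `Y` of class `C^r` on `𝕋^d` whose flow `Φ` on `𝕋^d` has
finitely many attractors covering Lebesgue almost every point; moreover every orbit of `Y`
converges to a point of a finite set. -/
theorem result (d : ℕ) (r : ℕ∞) (hr : 1 ≤ r)
    (A : (Fin d → ℝ) → (Fin d → ℝ) →L[ℝ] (Fin d → ℝ)) (hA : ContDiff ℝ r A)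
    (hAp : ∀ z n, IsInt n → A (z + n) = A z) (hA0 : ∀ z v, 0 ≤ ∑ i, v i * A z v i)
    (H : (Fin d → ℝ) → ℝ) (hH : ContDiff ℝ (r + 1 : ℕ∞) H)
    (hHp : ∀ z n, IsInt n → H (z + n) = H z)
    (k : ℕ) (hk : (k : ℕ∞) ≤ r) (ε : ℝ) (hε : 0 < ε) :
    ∃ Y : (Fin d → ℝ) → (Fin d → ℝ), ContDiff ℝ r Y ∧ (∀ z n, IsInt n → Y (z + n) = Y z) ∧
      (∀ j ≤ k, ∀ z, ‖iteratedFDeriv ℝ j (fun w => Y w - A w (grad H w)) z‖ < ε) ∧
      ∃ Φ : ℝ → Torus d → Torus d, IsFlowOf Y Φ ∧ (∀ x, Φ 0 x = x) ∧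
        (∀ s t x, Φ (s + t) x = Φ s (Φ t x)) ∧ Continuous (Function.uncurry Φ) ∧
        (∃ Z : Set (Torus d), Z.Finite ∧ ∀ x, ∃ p ∈ Z, Tendsto (fun t : ℝ => Φ t x) atTop (𝓝 p)) ∧
        FiniteAttractorsFlow (volume : Measure (Torus d)) Φ :=
  flow_main d r hr A hA hAp hA0 H hH hHp k hk ε hε

end Pool.Agent.Results.MP_3a2b62_an.HamiltonianFlows
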