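import Pool.Agent.Y318.LF.Stab

set_option autoImplicit false

/-!
# Finitude of attractors near the diffeomorphisms preserving linear foliations

`PreservesFlag r f V`: `f` is a `C^r` diffeomorphism of `𝕋^d` isotopic to the identity which
preserves the foliations of `𝕋^d` by the translates of `V 1 ⊂ V 2 ⊂ … ⊂ V (d - 1)`, linear
subspaces of `ℝ^d` of dimensions `1, 2, …, d - 1` with arbitrary (irrational) slopes.

Library: helper637 and team (rational case), helpers 678 and 728; for this extension
helpers 318, 210, 301, 785, 925.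
-/

namespace Pool.Agent.Results.MP_3a2b62_an.LinearFlags

open Pool.Agent.H728R2.OS Pool.Agent.H637R2.TD Pool.Agent.Y318.LF

/-- Arbitrarily `C^k` close (`k ≤ r` finite) to every `C^r` diffeomorphism `f` of `𝕋^d` which is
isotopic to the identity and preserves a complete flag of linear foliations there is one, `g`, of
the same kind (with another flag `W`) such that all homeomorphisms `h` of `𝕋^d` in a `C^1`
neighbourhood of `g` have finitely many attractors, whose basins cover `𝕋^d` up to a set of measure
zero; moreover the chain recurrent set of `h` is finite. -/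
theorem result (d : ℕ) (r : ℕ∞) (hr : 1 ≤ r) (f : Torus d ≃ₜ Torus d)
    (V : ℕ → Submodule ℝ (Fin d → ℝ)) (hf : PreservesFlag r f V)
    (k : ℕ) (hk : (k : ℕ∞) ≤ r) (ε : ℝ) (hε : 0 < ε) :
    ∃ (g : Torus d ≃ₜ Torus d) (W : ℕ → Submodule ℝ (Fin d → ℝ)), PreservesFlag r g W ∧
      CkClose toTorus k ε f g ∧ ∃ η : ℝ, 0 < η ∧ ∀ h : Torus d ≃ₜ Torus d,
        CkClose toTorus 1 η g h → FinitelyManyAttractors h ∧ (ChainRec h).Finite :=
  attr Pool.Agent.Y210.LF.prim Pool.Agent.Y301.LF.t Pool.Agent.Y210.LF.t_cjatt hr hf k hk ε hε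

end Pool.Agent.Results.MP_3a2b62_an.LinearFlags
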