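import Pool.Agent.Y318.MN.Attr

/-!
# Finitude of attractors near diffeomorphisms of closed manifolds which do not decrease a function

Author: helper318. Definitions: `Pool/Agent/H728R2/FA/Defs.lean` (attractors),
`Pool/Agent/H718R2/G0.lean` (Whitney topology), `Pool/Agent/Y318/MN/Dyn.lean` (`CritInv`).
-/

set_option autoImplicit false

open scoped Manifold ContDiff Topology

universe u

namespace Pool.Agent.Results.MP_3a2b62_an.MonotoneManifolds

open MeasureTheory Set Pool.Agent.H718R2.G Pool.Agent.TH80.OMS Pool.Agent.Y318.MN

open Pool.Agent.H728R2.FA (omegaLim FiniteAttractors)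

/-- Let `N` be a closed manifold, `F` a `C^r` diffeomorphism of `N`, `1 ≤ r ≤ ∞`, and `h` a smooth
function on `N` with `h ∘ F ≥ h` (for instance a first integral of `F`). Suppose that the points
whose whole `F`-orbit consists of critical points of `h` are contained in finitely many pairwise
disjoint closed invariant transitive sets `M 0, …, M (m - 1)` of critical points (for instance,
that they are finitely many points: then the `M i` are periodic orbits). Then every neighbourhood of
`F` in the `C^r` topology contains `G` such that every `ω`-limit set of `G` is contained in one of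
the `M i`, and `G` has finitely many attractors covering `N` up to a null set, for every measure on
`N` (in particular for the volume of a Riemannian metric). -/
theorem result (n : ℕ) (N : Type u) [TopologicalSpace N] [T2Space N] [CompactSpace N]
    [ChartedSpace (V n) N] [IsManifold (𝓡 n) ∞ N] (r : ℕ∞) (hr : 1 ≤ r) (F : DiffM n N r)
    (h : N → ℝ) (hh : ContMDiff (𝓡 n) 𝓘(ℝ, ℝ) ∞ h) (hm : ∀ x, h x ≤ h (F x))
    (m : ℕ) (M : Fin m → Set N) (hcl : ∀ i, IsClosed (M i)) (hinv : ∀ i, F '' M i = M i)
    (hdis : ∀ i j, i ≠ j → Disjoint (M i) (M j)) (hC : ∀ i, ∀ x ∈ M i, IsCrit n h x)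
    (htr : ∀ i, ∃ x ∈ M i, M i ⊆ closure (range fun k : ℕ => F^[k] x))
    (hcov : CritInv n F h ⊆ ⋃ i, M i) (U : Set (DiffM n N r))
    (hU : IsOpen[strongTop n N r] U) (hFU : F ∈ U) :
    ∃ G ∈ U, (∀ p, ∃ i, omegaLim G p ⊆ M i) ∧
      ∀ (_ : MeasurableSpace N) (μ : Measure N), FiniteAttractors μ G :=
  finitude hr F hh hm M hcl hinv hdis hC htr hcov U hU hFU

end Pool.Agent.Results.MP_3a2b62_an.MonotoneManifolds
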